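import Pool.Agent.Q42.SH.Orb

/-!
# Chowla's conjecture at polynomial values: products along the orbit of an affine map, of every degree

Let `φ(T) = u T + v`, `u ≥ 1`, and let `f = c L(T) L(φ(T)) L(φ(φ(T))) ⋯ L(φ^(k-1)(T))` with a linear polynomial
`L` whose root is not fixed by `φ`.  For `u = 1` the roots of `f` are in arithmetic progression, for `u ≥ 2`
they are of the form `A + B / u^j`.  Whatever the degree `k`, `f(T) f(φ(T))` is a square times
`L(T) L(φ^k(T))`, so `λ(f(n)) λ(f(φ(n)))` is a two point correlation, and at almost all scales the values of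
`λ(f)` change their sign between `n` and `φ(n)` for half of the `n`.
-/

set_option autoImplicit false

open Finset Filter Polynomial

namespace Pool.Agent.Results.MP_648c71_nt.AffineOrbitProducts

/-- the Liouville function on the integers, `λ(0) = 0` -/
noncomputable def liouville (m : ℤ) : ℝ := if m = 0 then 0 else (-1) ^ ArithmeticFunction.cardFactors m.natAbs

/-- the `j`-th iterate of `T ↦ u T + v` as a polynomial -/
noncomputable def iter (u v : ℤ) (j : ℕ) : ℤ[X] := (fun p => C u * p + C v)^[j] X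

/-- `f = c (a T + b) (a φ(T) + b) ⋯ (a φ^(k-1)(T) + b)`, where `φ(T) = u T + v` -/
noncomputable def orbitProduct (a b c u v : ℤ) (k : ℕ) : ℤ[X] :=
  C c * ∏ j ∈ range k, (C a * iter u v j + C b)

/-- the sum of `λ(f(n))` over the `n ≤ N` -/
noncomputable def sum (f : ℤ[X]) (N : ℕ) : ℝ := ∑ n ∈ Icc 1 N, liouville (f.eval (n : ℤ))

open Classical in
/-- logarithmic density zero -/
def LogDensityZero (E : Set ℕ) : Prop :=
  Tendsto (fun X : ℕ => (∑ N ∈ Icc 1 X, if N ∈ E then (1 : ℝ) / N else 0) / Real.log X) atTop (nhds 0)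

lemma iter_eval (u v : ℤ) (j : ℕ) (x : ℤ) : (iter u v j).eval x = (Pool.Agent.Q42.SH.Orb.phi u v)^[j] x := by
  induction j with
  | zero => simp [iter]
  | succ j ih =>
    unfold iter at ih ⊢
    rw [Function.iterate_succ_apply', Function.iterate_succ_apply', eval_add, eval_mul, eval_C, eval_C, ih]
    rfl

lemma lam_eval (a b c u v : ℤ) (k : ℕ) (x : ℤ) :
    liouville ((orbitProduct a b c u v k).eval x) = Pool.Agent.Q42.SH.Orb.F a b c u v k x := by
  unfold orbitProduct Pool.Agent.Q42.SH.Orb.F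
  rw [eval_mul, eval_C, eval_prod]
  have : ∀ j ∈ range k, eval x (C a * iter u v j + C b) =
      a * (Pool.Agent.Q42.SH.Orb.phi u v)^[j] x + b := by
    intro j _
    rw [eval_add, eval_mul, eval_C, eval_C, iter_eval]
  rw [prod_congr rfl this]
  rfl

lemma iter_deg (u v : ℤ) (hu : 1 ≤ u) (j : ℕ) : (iter u v j).natDegree = 1 := by
  have hu0 : u ≠ 0 := by omega
  induction j with
  | zero => simp [iter]
  | succ j ih =>
    have : iter u v (j + 1) = C u * iter u v j + C v := by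
      unfold iter
      rw [Function.iterate_succ_apply']
    rw [this, natDegree_add_C, natDegree_C_mul hu0, ih]

/-- **Theorem.** There is one set `𝓔` of logarithmic density zero such that for all integers `a ≠ 0`, `b`,
`c ≠ 0`, `u ≥ 1`, `v` with `b (u - 1) ≠ a v` and all `k ≥ 1` the polynomial
`f = c (a T + b) (a φ(T) + b) ⋯ (a φ^(k-1)(T) + b)`, `φ(T) = u T + v`, has degree `k`, and for every `ε > 0` and
all large `N`:
1. if `N ∉ 𝓔` then `|∑_{n ≤ N} λ(f(n))| + |∑_{n ≤ N} λ(f(u n + v))| ≤ (1 + ε) N`, and for `u = 1` also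
   `|∑_{n ≤ N} λ(f(n))| ≤ (1/2 + ε) N`;
2. without exceptions `∑_{M ≤ N} |∑_{n ≤ M} λ(f(n))| / M² ≤ (u / (u + 1) + ε) log N`, that is, the logarithmic
   mean over the scales `M ≤ N` of the absolute value of the mean of `λ(f)` up to `M` is at most
   `u / (u + 1) + ε`; hence `|∑_{n ≤ N} λ(f(n)) / n| ≤ (u / (u + 1) + ε) log N`. -/
theorem result : ∃ 𝓔 : Set ℕ, LogDensityZero 𝓔 ∧ ∀ (a b c u v : ℤ), a ≠ 0 → c ≠ 0 → 1 ≤ u →
    b * (u - 1) ≠ a * v → ∀ k : ℕ, 1 ≤ k → (orbitProduct a b c u v k).natDegree = k ∧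
      ∀ ε : ℝ, 0 < ε → ∃ N₀ : ℕ, ∀ N : ℕ, N₀ ≤ N →
        (N ∉ 𝓔 →
          |sum (orbitProduct a b c u v k) N| +
            |∑ n ∈ Icc 1 N, liouville ((orbitProduct a b c u v k).eval (u * n + v))| ≤ (1 + ε) * N ∧
          (u = 1 → |sum (orbitProduct a b c u v k) N| ≤ (1 / 2 + ε) * N)) ∧
        ∑ M ∈ Icc 1 N, |sum (orbitProduct a b c u v k) M| / (M : ℝ) ^ 2 ≤
          ((u : ℝ) / (u + 1) + ε) * Real.log N ∧
        |∑ n ∈ Icc 1 N, liouville ((orbitProduct a b c u v k).eval (n : ℤ)) / n| ≤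
          ((u : ℝ) / (u + 1) + ε) * Real.log N := by
  obtain ⟨E₁, hE₁, h1⟩ := Pool.Agent.Q42.SH.Orb.master
  obtain ⟨E₂, hE₂, h2⟩ := Pool.Agent.Q42.SH.Orb.half
  refine ⟨E₁ ∪ E₂, Pool.Agent.Y842.EL.LZ_union hE₁ hE₂, fun a b c u v ha hc hu hne k hk => ⟨?_, ?_⟩⟩
  · unfold orbitProduct
    have hf : ∀ j ∈ range k, (C a * iter u v j + C b).natDegree = 1 := by
      intro j _
      rw [natDegree_add_C, natDegree_C_mul ha, iter_deg u v hu]
    rw [natDegree_C_mul hc, natDegree_prod _ _ fun j hj => by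
      intro h0
      have := hf j hj
      rw [h0] at this
      simp at this]
    rw [sum_congr rfl hf]
    simp
  intro ε hε
  have hS : ∀ M : ℕ, sum (orbitProduct a b c u v k) M =
      ∑ n ∈ Icc 1 M, Pool.Agent.Q42.SH.Orb.F a b c u v k n := fun M =>
    sum_congr rfl fun n _ => lam_eval a b c u v k n
  obtain ⟨N₁, h3⟩ := h1 a b c u v ha hc hu hne k hk ε hε
  obtain ⟨N₂, h4⟩ := Pool.Agent.Q42.SH.Orb.logmean a b c u v ha hc hu hne k hk (ε / 2) (by positivity)
  have h5 : ∃ N₃ : ℕ, ∀ N : ℕ, N₃ ≤ N → N ∉ E₂ → u = 1 →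
      |sum (orbitProduct a b c u v k) N| ≤ (1 / 2 + ε) * N := by
    by_cases hu1 : u = 1
    · subst hu1
      obtain ⟨N₃, h6⟩ := h2 a b c v ha hc (by
        intro hv
        apply hne
        rw [hv]
        ring) k hk ε hε
      exact ⟨N₃, fun N hN hNE _ => by rw [hS]; exact h6 N hN hNE⟩
    · exact ⟨0, fun _ _ _ hh => absurd hh hu1⟩
  obtain ⟨N₃, h5⟩ := h5
  have hlog : Tendsto (fun X : ℕ => Real.log X) atTop atTop :=
    Real.tendsto_log_atTop.comp tendsto_natCast_atTop_atTop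
  obtain ⟨N₄, h6⟩ := eventually_atTop.1 (hlog.eventually_ge_atTop (2 / ε))
  refine ⟨N₁ + N₂ + N₃ + N₄, fun N hN => ?_⟩
  have hl := h6 N (by omega)
  rw [div_le_iff₀ hε] at hl
  have hl0 : 0 ≤ Real.log N := Real.log_natCast_nonneg N
  have h7 := h4 N (by omega)
  simp_rw [← hS] at h7
  refine ⟨fun hNE => ⟨?_, h5 N (by omega) (fun hh => hNE (Or.inr hh))⟩, ?_, ?_⟩
  · have h8 := h3 N (by omega) (fun hh => hNE (Or.inl hh))
    rw [hS]
    refine le_trans (le_of_eq ?_) h8
    congr 2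
    exact sum_congr rfl fun n _ => lam_eval a b c u v k _
  · nlinarith
  · have h8 := Pool.Agent.Q42.SH.abel_c
      (fun n => ((liouville ((orbitProduct a b c u v k).eval (n : ℤ)) : ℝ) : ℂ)) N
    have e1 : ‖∑ n ∈ Icc 1 N, ((liouville ((orbitProduct a b c u v k).eval (n : ℤ)) : ℝ) : ℂ) / n‖ =
        |∑ n ∈ Icc 1 N, liouville ((orbitProduct a b c u v k).eval (n : ℤ)) / n| := by
      have : ∑ n ∈ Icc 1 N, ((liouville ((orbitProduct a b c u v k).eval (n : ℤ)) : ℝ) : ℂ) / n =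
          ((∑ n ∈ Icc 1 N, liouville ((orbitProduct a b c u v k).eval (n : ℤ)) / n : ℝ) : ℂ) := by
        push_cast
        rfl
      rw [this, Complex.norm_real, Real.norm_eq_abs]
    rw [← e1, h8]
    have hb : ∀ M : ℕ, ‖∑ n ∈ Icc 1 M, ((liouville ((orbitProduct a b c u v k).eval (n : ℤ)) : ℝ) : ℂ)‖ =
        |sum (orbitProduct a b c u v k) M| := by
      intro M
      rw [← Complex.ofReal_sum, Complex.norm_real, Real.norm_eq_abs]
      rfl
    have hM : ∀ M : ℕ, |sum (orbitProduct a b c u v k) M| ≤ M := by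
      intro M
      rw [hS]
      refine (abs_sum_le_sum_abs _ _).trans ((sum_le_sum fun n _ =>
        Pool.Agent.Q42.SH.Orb.F_abs _ _ _ _ _ _ _).trans (le_of_eq ?_))
      simp
    have e2 : ∀ M : ℕ, ‖(M : ℂ) + 1‖ = (M : ℝ) + 1 := by
      intro M
      have : (M : ℂ) + 1 = (((M : ℝ) + 1 : ℝ) : ℂ) := by push_cast; ring
      rw [this, Complex.norm_real, Real.norm_of_nonneg (by positivity)]
    have e3 : ‖(∑ n ∈ Icc 1 N, ((liouville ((orbitProduct a b c u v k).eval (n : ℤ)) : ℝ) : ℂ)) /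
        ((N : ℂ) + 1)‖ ≤ 1 := by
      rw [norm_div, e2, hb, div_le_one (by positivity)]
      have := hM N
      linarith
    have e4 : ‖∑ M ∈ Icc 1 N, (∑ n ∈ Icc 1 M, ((liouville ((orbitProduct a b c u v k).eval (n : ℤ)) : ℝ) : ℂ)) /
        ((M : ℂ) * (M + 1))‖ ≤ ∑ M ∈ Icc 1 N, |sum (orbitProduct a b c u v k) M| / (M : ℝ) ^ 2 := by
      refine (norm_sum_le _ _).trans (sum_le_sum fun M hM' => ?_)
      rw [mem_Icc] at hM'
      have hM0 : (0 : ℝ) < M := by exact_mod_cast (by omega : 0 < M)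
      rw [norm_div, norm_mul, e2, hb, Complex.norm_natCast]
      refine div_le_div_of_nonneg_left (abs_nonneg _) (by positivity) ?_
      nlinarith
    refine (norm_add_le _ _).trans ((add_le_add e4 e3).trans ?_)
    nlinarith

end Pool.Agent.Results.MP_648c71_nt.AffineOrbitProducts
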