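import Pool.Agent.Q56.TF.Two

/-!
# The Liouville function at products of linear polynomials whose constant terms lie near real sequences

The constant terms `b i` of the linear factors are arbitrary integers with `|b i - r i (m i)| ≤ log ^ A N`, for almost
all tuples of indices `m i ≤ x i`, where the `r i` are arbitrary families of real numbers of nearly minimal energy; for
instance the (real) values `β + κ f m` of a polynomial `f` with integer coefficients, with arbitrary real `κ ≠ 0` and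
`β`, or of a generalised polynomial `f t = ∑ w_y t ^ y` whose largest exponent is greater than `1` and not an
integer (`f t = t ^ c`: the sequences of Piatetski-Shapiro). A further factor is an arbitrary polynomial.

From Mathlib: `ArithmeticFunction.cardFactors`: the number `Ω` of prime factors with multiplicity; `Polynomial ℤ`. The
bound for families of integers is from `Pool.Agent.Q25.TFam` (helper25) and the starting files (`Pool.Agent.TH935.LF1`).
-/

set_option autoImplicit false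

namespace Pool.Agent.Results.MP_648c71_nt.FactorsNearRealSequences

open Finset Polynomial

open Classical in
/-- The energy of order `p` of the family of real numbers `r 1, ..., r x`: the number of the pairs `v`, `w` of
`p`-tuples of elements of `{1, ..., x}` such that `r (v 1) + ... + r (v p)` and `r (w 1) + ... + r (w p)` differ
by at most `1`. -/
noncomputable def energy (p x : ℕ) (r : ℕ → ℝ) : ℕ :=
  (((Fintype.piFinset fun _ : Fin p => Icc 1 x) ×ˢ (Fintype.piFinset fun _ : Fin p => Icc 1 x)).filter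
    (fun q => |∑ i, r (q.1 i) - ∑ i, r (q.2 i)| ≤ 1)).card

/-- The Liouville function on the integers: `λ(-n) = λ(n)` and `λ(0) = 0`. -/
def lam (n : ℤ) : ℤ := if n = 0 then 0 else (-1) ^ ArithmeticFunction.cardFactors n.natAbs

/-- The constant terms `b 0, ..., b k` are good for the data `a l i`, `g l`, `w l`: for all `l` and all nonempty sets `J`
of indices the sums of `w l n * λ(f n)` over `n ≤ M`, where `f` is the product of `g l` and of the `a l i * T + b i`
with `i` in `J`, are at most `N / log ^ U N`, for all `M` with `a l i * M ≤ B N` for all `i`. -/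
def Good (B U N : ℕ) {k D : ℕ} (a : Fin D → Fin (k + 1) → ℕ) (g : Fin D → ℤ[X]) (w : Fin D → ℕ → ℂ)
    (b : Fin (k + 1) → ℤ) : Prop :=
  ∀ l, ∀ J : Finset (Fin (k + 1)), J.Nonempty → ∀ M : ℕ, (∀ i, a l i * M ≤ B * N) →
    ‖∑ n ∈ Icc 1 M, w l n * (lam ((g l * ∏ i ∈ J, (C (a l i : ℤ) * X + C (b i))).eval (n : ℤ)) : ℂ)‖ ≤
      N / Real.log N ^ U

open Classical in
/-- The number of the tuples `m` with `1 ≤ m i ≤ x i` for which not all tuples of integers `b i` at a distance of at
most `w` from `r i (m i)` have the property `G`. -/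
noncomputable def exceptions {k : ℕ} (x : Fin (k + 1) → ℕ) (r : Fin (k + 1) → ℕ → ℝ) (w : ℝ)
    (G : (Fin (k + 1) → ℤ) → Prop) : ℕ :=
  ((Fintype.piFinset fun i => Icc 1 (x i)).filter (fun m : Fin (k + 1) → ℕ =>
    ∃ b : Fin (k + 1) → ℤ, (∀ i, |(b i : ℝ) - r i (m i)| ≤ w) ∧ ¬ G b)).card

/-- The bounds at scale `N` for the windows around the `r i (m i)`: for any `D ≤ log ^ T N` systems of numbers
`a l i ≥ 1`, arbitrary polynomials `g l` with integer coefficients and arbitrary weights `w l` bounded by `log ^ T N`: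
for all tuples `m`, `m i ≤ x i`, with at most `(∏ x i) / log ^ U N` exceptions, all tuples of integers `b i` with
`|b i - r i (m i)| ≤ log ^ A N` are good. -/
def Holds {k : ℕ} (A B T U N : ℕ) (x : Fin (k + 1) → ℕ) (r : Fin (k + 1) → ℕ → ℝ) : Prop :=
  ∀ D : ℕ, (D : ℝ) ≤ Real.log N ^ T → ∀ (a : Fin D → Fin (k + 1) → ℕ) (g : Fin D → ℤ[X]) (w : Fin D → ℕ → ℂ),
    (∀ l i, 1 ≤ a l i) → (∀ l n, ‖w l n‖ ≤ Real.log N ^ T) →
    (exceptions x r (Real.log N ^ A) (Good B U N a g w) : ℝ) ≤ (∏ i, (x i : ℝ)) / Real.log N ^ U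

/-- The admissible sequences `f`, of growth `x ^ c`: nonzero real multiples of nonconstant polynomials with integer
coefficients (of degree `c`), and generalised polynomials `∑ w_y m ^ y` (finite sums) whose largest exponent `c` is
greater than `1` and not an integer, `w_c ≠ 0`. -/
def Admissible (f : ℕ → ℝ) (c : ℝ) : Prop :=
  (∃ P : ℤ[X], ∃ κ : ℝ, 1 ≤ P.natDegree ∧ κ ≠ 0 ∧ c = P.natDegree ∧ f = fun m : ℕ => κ * ((P.eval (m : ℤ) : ℤ) : ℝ)) ∨
  (∃ (F : Finset ℝ) (w : ℝ → ℝ), c ∈ F ∧ (∀ y ∈ F, y ≤ c) ∧ w c ≠ 0 ∧ 1 < c ∧ (∀ k : ℕ, c ≠ k) ∧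
    f = fun m : ℕ => ∑ y ∈ F, w y * (m : ℝ) ^ y)

open Pool.Agent.H373R2.T7 (liR)
open Pool.Agent.Q56.TF (NearTwo)

lemma lam_eq' (z : ℤ) : (lam z : ℂ) = Pool.Agent.Q25.TFam.even liR z := Pool.Agent.Q25.TPol.lam_eq z

lemma lam_mul' (a b : ℤ) : lam (a * b) = lam a * lam b := Pool.Agent.Q25.TPol.lam_mul a b

lemma lam_norm' (z : ℤ) : ‖(lam z : ℂ)‖ ≤ 1 := Pool.Agent.Q25.TPol.lam_norm z

lemma lam_prod' {ι : Type*} (s : Finset ι) (f : ι → ℤ) : lam (∏ j ∈ s, f j) = ∏ j ∈ s, lam (f j) :=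
  Pool.Agent.Q25.TPol.lam_prod s f

/-- the transfer -/
lemma holds_of (k A B T U : ℕ) : ∃ N₀ : ℕ, ∀ N : ℕ, N₀ ≤ N → ∀ (x : Fin (k + 1) → ℕ) (r : Fin (k + 1) → ℕ → ℝ),
    (∀ i, NearTwo liR A B (T + (A + 1) * (k + 1)) (U + 1) N (x i) (r i)) → Holds A B T U N x r := by
  classical
  obtain ⟨n1, h1⟩ := Pool.Agent.Q56.TF.tuples_near (f := liR) (fun z => by
    rw [← lam_eq']
    exact lam_norm' z) k A B T U
  refine ⟨n1, fun N hN x r h D hD a g w ha hw => ?_⟩
  unfold exceptions
  refine h1 N hN x r h D hD a (fun l v => w l v.toNat * (lam ((g l).eval v) : ℂ)) ha ?_ _ ?_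
  · intro l v
    have h0 : 0 ≤ Real.log (N : ℝ) ^ T := (norm_nonneg _).trans (hw l 0)
    rw [norm_mul]
    calc _ ≤ Real.log N ^ T * 1 := mul_le_mul (hw l _) (lam_norm' _) (norm_nonneg _) h0
      _ = _ := mul_one _
  · rintro m ⟨b, hb, hnb⟩
    unfold Good at hnb
    push Not at hnb
    obtain ⟨l, J, hJ, M, hM, h3⟩ := hnb
    refine ⟨b, hb, l, J, hJ, M, hM, Or.inl (lt_of_lt_of_eq h3 ?_)⟩
    congr 1
    apply sum_congr rfl
    intro n _
    rw [eval_mul, eval_prod, lam_mul', lam_prod', Int.toNat_natCast]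
    push_cast
    rw [mul_assoc]
    congr 2
    apply prod_congr rfl
    intro i _
    rw [lam_eq']
    congr 1
    simp only [eval_add, eval_mul, eval_C, eval_X]

/-- Let `k`, `A`, `B`, `C`, `T`, `U` be fixed.

* For all `p 0, ..., p k` the following holds for all large `N`. For `i ≤ k` let `r i 1, ..., r i (x i)` be an
  arbitrary family of real numbers in `[-B N, B N]` with an energy of order `p i` of at most `log ^ C N` times
  `(x i) ^ (2 p i) / N` (the minimal possible order of magnitude; the family may have as few as `N ^ (1 / p i)`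
  members). Then (`Holds`), for any `D ≤ log ^ T N` systems of numbers `a l i ≥ 1`, polynomials `g l ∈ ℤ[T]` and
  weights `|w l n| ≤ log ^ T N`: for all the tuples `m`, `m i ≤ x i`, with at most `(∏ x i) / log ^ U N`
  exceptions, ALL tuples of integers `b i` with `|b i - r i (m i)| ≤ log ^ A N` satisfy
  `|∑ n ≤ M, w l n * λ(g l(n) * ∏ i ∈ J, (a l i * n + b i))| ≤ N / log ^ U N` for all `l`, all nonempty sets `J` of
  indices and all `M` with `a l i * M ≤ B N` for all `i`.
* This holds for `r i m = β i + f i m`, `|β i| ≤ B N`, where the `f i` are fixed admissible sequences of growth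
  `x ^ (c i)` (nonzero real multiples of integer polynomials of degree `c i ≥ 1`, or generalised polynomials with
  the largest exponent `c i > 1` not an integer) and `N / log ^ C N ≤ (x i) ^ (c i) ≤ B N`. -/
theorem result (k A B C T U : ℕ) :
    (∀ p : Fin (k + 1) → ℕ, ∃ N₀ : ℕ, ∀ N : ℕ, N₀ ≤ N → ∀ (x : Fin (k + 1) → ℕ) (r : Fin (k + 1) → ℕ → ℝ),
      (∀ i, ∀ m ∈ Icc 1 (x i), |r i m| ≤ B * N) →
      (∀ i, (energy (p i) (x i) (r i) : ℝ) * N ≤ Real.log N ^ C * (x i : ℝ) ^ (2 * p i)) → Holds A B T U N x r) ∧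
    (∀ (f : Fin (k + 1) → ℕ → ℝ) (c : Fin (k + 1) → ℝ), (∀ i, Admissible (f i) (c i)) →
      ∃ N₀ : ℕ, ∀ N : ℕ, N₀ ≤ N → ∀ x : Fin (k + 1) → ℕ,
        (∀ i, (x i : ℝ) ^ (c i) ≤ B * N ∧ (N : ℝ) ≤ Real.log N ^ C * (x i : ℝ) ^ (c i)) →
        ∀ β : Fin (k + 1) → ℝ, (∀ i, |β i| ≤ B * N) → Holds A B T U N x (fun i m => β i + f i m)) := by
  classical
  have hf := Pool.Agent.W93.LM.nice_liR.1
  have hs := Pool.Agent.W93.LM.nice_liR.2.1
  obtain ⟨n2, h2⟩ := holds_of k A B T U
  constructor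
  · intro p
    choose n1 h1 using fun i => Pool.Agent.Q56.TF.nearTwo_gen hf hs (p i) A B C (T + (A + 1) * (k + 1)) (U + 1)
    refine ⟨∑ i, n1 i + n2, fun N hN x r hr hE => h2 N (by omega) x r fun i => ?_⟩
    have h3 : n1 i ≤ ∑ i, n1 i := single_le_sum (f := n1) (fun _ _ => Nat.zero_le _) (mem_univ i)
    exact h1 i N (by omega) (x i) (r i) (hr i) (hE i)
  · intro f c hfc
    have hbase : ∀ i, Pool.Agent.Q56.TF.Base (f i) (c i) ∧ 1 ≤ c i := by
      intro i
      rcases hfc i with ⟨P, κ, hP, hκ, hc, hfi⟩ | ⟨F, w, hcF, hmax, hwc, hc, hcn, hfi⟩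
      · rw [hc, hfi]
        exact ⟨(Pool.Agent.Q56.TF.base_poly P hP).dil hκ, by exact_mod_cast hP⟩
      · rw [hfi]
        exact ⟨Pool.Agent.Q56.TF.base_gp F w (c i) hcF hmax hwc hc hcn, hc.le⟩
    choose n1 h1 using fun i => Pool.Agent.Q56.TF.nearTwo_seq hf hs (hbase i).1 (hbase i).2 A B C
      (T + (A + 1) * (k + 1)) (U + 1)
    refine ⟨∑ i, n1 i + n2, fun N hN x hx β hβ => h2 N (by omega) x _ fun i => ?_⟩
    have h3 : n1 i ≤ ∑ i, n1 i := single_le_sum (f := n1) (fun _ _ => Nat.zero_le _) (mem_univ i)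
    exact h1 i N (by omega) (x i) (hx i).1 (hx i).2 (β i) (hβ i)

end Pool.Agent.Results.MP_648c71_nt.FactorsNearRealSequences
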