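import Pool.Agent.Q44.LiouvT

/-!
# Chowla's conjecture with power savings of the logarithm, for the polynomials given by continued fractions

Let `g` be a polynomial with integer coefficients and `w` a sequence of complex numbers of absolute value at most `1` (for
example the indicator function of an arithmetic progression), and let `K` and `U` be fixed.

For almost every real number `α` and all integers `u, v, u', v'` with `u v' ≠ u' v` the following holds for all but finitely
many convergents `p / q` of the continued fraction of `α`. Let `b = u p + v q` and `b' = u' p + v' q`. For all positive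
integers `a, a' ≤ (log q) ^ K`, for `f = (a T + b) g`, `f = (a' T + b') g` and `f = (a T + b) (a' T + b') g`, and for all
`M` between `q / (log q) ^ K` and `q (log q) ^ K` the sum of the `w(n) λ(f(n))`, `n ≤ M`, is at most `M / (log q) ^ U`.

More generally, for almost every `α` in `ℝ ^ d` the same holds for the products of `g` and of the linear polynomials
`a_i T + b_i`, `i` in any nonempty subset of `{0, …, d}`, where `b = Q x` with an integer matrix `Q` of nonzero determinant
and `x` is an integer vector which gives a simultaneous rational approximation of `α` of the quality of Dirichlet's theorem,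
`|α_j - x_j / x_0| ≤ (1 + log x_0) ^ A x_0 ^ (-(1 + 1 / d))`, for all but finitely many `x`.

Proof. The number of the exceptional tuples `(b_0, …, b_d)` in a box is smaller than the number of all tuples by an arbitrary
power of the logarithm (helper25's `MP_892e4c_nt.PolynomialShifts`); this is applied with the lemma of Borel and Cantelli.
-/

set_option autoImplicit false

namespace Pool.Agent.Results.MP_648c71_nt.GoodApproximations

open Finset Polynomial MeasureTheory Filter

/-- The Liouville function on the integers: `λ(-n) = λ(n)` and `λ(0) = 0`. -/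
def lam (n : ℤ) : ℤ := if n = 0 then 0 else (-1) ^ ArithmeticFunction.cardFactors n.natAbs

/-- For all positive integers `a_i ≤ (log S) ^ K`, all nonempty sets `J` of indices and all `M` between
`S / (log S) ^ K` and `S (log S) ^ K` the sum of the `w(n) λ(f(n))`, `n ≤ M`, with the polynomial
`f = g ∏ (a_i T + b_i)`, `i` in `J`, has an absolute value of at most `M / (log S) ^ U`. -/
def Good (g : ℤ[X]) (w : ℕ → ℂ) (K U : ℕ) {k : ℕ} (S : ℝ) (b : Fin (k + 1) → ℤ) : Prop :=
  ∀ a : Fin (k + 1) → ℕ, (∀ i, 1 ≤ a i ∧ (a i : ℝ) ≤ Real.log S ^ K) →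
    ∀ J : Finset (Fin (k + 1)), J.Nonempty → ∀ M : ℕ, S ≤ Real.log S ^ K * M → (M : ℝ) ≤ Real.log S ^ K * S →
      ‖∑ n ∈ Icc 1 M, w n * (lam ((g * ∏ i ∈ J, (C (a i : ℤ) * X + C (b i))).eval (n : ℤ)) : ℂ)‖ ≤
        M / Real.log S ^ U

lemma good_iff (g : ℤ[X]) (w : ℕ → ℂ) (K U : ℕ) {k : ℕ} (S : ℝ) (b : Fin (k + 1) → ℤ) :
    Good g w K U S b ↔ Pool.Agent.Q44.LT.Good g w K U S b := Iff.rfl

/-- The integer vector `x` gives a simultaneous rational approximation of `α` of the quality of Dirichlet's theorem, up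
to `(1 + log x_0) ^ A`. -/
def Approximates {d : ℕ} (α : Fin d → ℝ) (A : ℕ) (x : Fin (d + 1) → ℤ) : Prop :=
  1 ≤ x 0 ∧ ∀ j : Fin d, |α j - (x j.succ : ℝ) / (x 0 : ℝ)| ≤
    (1 + Real.log (x 0)) ^ A * (x 0 : ℝ) ^ (-(1 + 1 / (d : ℝ)))

lemma points (g : ℤ[X]) (w : ℕ → ℂ) (hw : ∀ n, ‖w n‖ ≤ 1) (K U : ℕ) (d : ℕ) (hd : 1 ≤ d) :
    ∀ᵐ α : Fin d → ℝ, ∀ (A : ℕ) (Q : Matrix (Fin (d + 1)) (Fin (d + 1)) ℤ), Q.det ≠ 0 →
      {x : Fin (d + 1) → ℤ | Approximates α A x ∧ ¬ Good g w K U (x 0) (Q.mulVec x)}.Finite := by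
  rw [ae_all_iff]
  intro A
  have h1 : ∀ᵐ α : Fin d → ℝ, ∀ Q : {Q : Matrix (Fin (d + 1)) (Fin (d + 1)) ℤ // Q.det ≠ 0},
      {x : Fin (d + 1) → ℤ | Pool.Agent.Q44.CF.NearR α (Pool.Agent.Q44.CF.rad d A) x ∧
        ¬ Good g w K U (x 0) (Q.1.mulVec x)}.Finite := by
    have : Countable (Matrix (Fin (d + 1)) (Fin (d + 1)) ℤ) :=
      inferInstanceAs (Countable (Fin (d + 1) → Fin (d + 1) → ℤ))
    rw [ae_all_iff]
    intro Q
    rw [ae_iff]
    exact Pool.Agent.Q44.CF.null_logT hd (Pool.Agent.Q44.LT.cnt_bad g w hw K U (A * d + 2) Q.1 Q.2)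
  refine h1.mono fun α hα Q hQ => (hα ⟨Q, hQ⟩).subset ?_
  rintro x ⟨⟨hx0, hx⟩, hP⟩
  refine ⟨⟨hx0, fun j => (hx j).trans (le_of_eq ?_)⟩, hP⟩
  have e : (((x 0).toNat : ℕ) : ℝ) = (x 0 : ℝ) := by
    have : (((x 0).toNat : ℤ) : ℝ) = (x 0 : ℝ) := by rw [Int.toNat_of_nonneg (by omega)]
    exact_mod_cast this
  unfold Pool.Agent.Q44.CF.rad
  rw [e]

lemma convergents (g : ℤ[X]) (w : ℕ → ℂ) (hw : ∀ n, ‖w n‖ ≤ 1) (K U : ℕ) :
    ∀ᵐ α : ℝ, ∀ u v u' v' : ℤ, u * v' ≠ u' * v → ∀ᶠ n in atTop,
      Good g w K U ((α.convergent n).den : ℝ)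
        ![u * (α.convergent n).num + v * (α.convergent n).den,
          u' * (α.convergent n).num + v' * (α.convergent n).den] := by
  have h1 := points g w hw K U 1 le_rfl
  have h2 : ∀ᵐ α : ℝ, Irrational α := by
    have : volume (Set.range ((↑) : ℚ → ℝ)) = 0 := (Set.countable_range _).measure_zero _
    rw [ae_iff]
    refine measure_mono_null (fun a ha => ?_) this
    exact not_not.1 ha
  have h3 : ∀ᵐ α : ℝ, ∀ Q : Matrix (Fin (1 + 1)) (Fin (1 + 1)) ℤ, Q.det ≠ 0 →
      {x : Fin (1 + 1) → ℤ | Approximates (fun _ => α) 0 x ∧ ¬ Good g w K U (x 0) (Q.mulVec x)}.Finite := by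
    have hmp : MeasurePreserving (MeasurableEquiv.funUnique (Fin 1) ℝ) :=
      volume_preserving_funUnique (Fin 1) ℝ
    have h4 := hmp.symm.quasiMeasurePreserving.ae h1
    refine h4.mono fun α hα Q hQ => ?_
    have h5 := hα 0 Q hQ
    exact h5
  filter_upwards [h2, h3] with α hirr hα u v u' v' huv
  have h4 := hα !![v, u; v', u'] (by
    rw [Matrix.det_fin_two_of]
    intro h0
    exact huv (by linarith))
  have h5 : {r : ℚ | |α - r| ≤ 1 / (r.den : ℝ) ^ 2 ∧
      ¬ Good g w K U (r.den : ℝ) ![u * r.num + v * r.den, u' * r.num + v' * r.den]}.Finite := by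
    refine Set.Finite.of_finite_image (f := fun r : ℚ => (![(r.den : ℤ), r.num] : Fin (1 + 1) → ℤ)) (h4.subset ?_) ?_
    · rintro _ ⟨r, ⟨hr1, hr3⟩, rfl⟩
      have hden1 : (1 : ℤ) ≤ (r.den : ℤ) := by exact_mod_cast r.den_pos
      have hmul : (!![v, u; v', u'] : Matrix (Fin (1 + 1)) (Fin (1 + 1)) ℤ).mulVec
          (![(r.den : ℤ), r.num] : Fin (1 + 1) → ℤ) =
          ![u * r.num + v * r.den, u' * r.num + v' * r.den] := by
        funext i
        fin_cases i <;> simp [Matrix.mulVec, dotProduct, Fin.sum_univ_two] <;> ring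
      refine ⟨⟨by simpa using hden1, fun j => ?_⟩, ?_⟩
      · have hj : j = 0 := Subsingleton.elim _ _
        subst hj
        have e : (((![(r.den : ℤ), r.num] : Fin (1 + 1) → ℤ) (Fin.succ 0) : ℤ) : ℝ) /
            (((![(r.den : ℤ), r.num] : Fin (1 + 1) → ℤ) 0 : ℤ) : ℝ) = (r : ℝ) := by
          have := Rat.num_div_den r
          have h3 : (((r.num : ℚ) / (r.den : ℚ) : ℚ) : ℝ) = (r : ℝ) := by rw [this]
          rw [← h3]
          push_cast
          rfl
        have e2 : ((((![(r.den : ℤ), r.num] : Fin (1 + 1) → ℤ) 0 : ℤ)) : ℝ) ^ (-(1 + 1 / ((1 : ℕ) : ℝ))) =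
            1 / (r.den : ℝ) ^ 2 := by
          have e3 : (-(1 + 1 / ((1 : ℕ) : ℝ)) : ℝ) = -((2 : ℕ) : ℝ) := by norm_num
          rw [e3, Real.rpow_neg (by simp), Real.rpow_natCast, one_div]
          simp
        rw [e, e2, pow_zero, one_mul]
        exact hr1
      · rw [hmul]
        simpa using hr3
    · intro r _ r' _ hrr
      have e1 := congrFun hrr 0
      have e2 := congrFun hrr 1
      simp at e1 e2
      exact Rat.ext e2 e1
  filter_upwards [Pool.Agent.Q44.CF.eventually_convergent hirr h5] with n hn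
  by_contra hP
  exact hn ⟨Pool.Agent.Q44.CF.near_convergent hirr n, hP⟩

/-- **Theorem.** (1) Almost every `α` in `ℝ ^ d`: for all `A` and all integer matrices `Q` of nonzero determinant the
vector `Q x` is good, with the scale `x_0`, for all but finitely many of the approximations `x` of `α` of the quality of
Dirichlet's theorem. (2) Almost every real number `α`: for all integers `u, v, u', v'` with `u v' ≠ u' v` the pair
`(u p + v q, u' p + v' q)` is good, with the scale `q`, for all but finitely many convergents `p / q` of `α`. -/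
theorem result (g : ℤ[X]) (w : ℕ → ℂ) (hw : ∀ n, ‖w n‖ ≤ 1) (K U : ℕ) :
    (∀ d : ℕ, 1 ≤ d → ∀ᵐ α : Fin d → ℝ, ∀ (A : ℕ) (Q : Matrix (Fin (d + 1)) (Fin (d + 1)) ℤ), Q.det ≠ 0 →
      {x : Fin (d + 1) → ℤ | Approximates α A x ∧ ¬ Good g w K U (x 0) (Q.mulVec x)}.Finite) ∧
    (∀ᵐ α : ℝ, ∀ u v u' v' : ℤ, u * v' ≠ u' * v → ∀ᶠ n in atTop,
      Good g w K U ((α.convergent n).den : ℝ)
        ![u * (α.convergent n).num + v * (α.convergent n).den,
          u' * (α.convergent n).num + v' * (α.convergent n).den]) :=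
  ⟨points g w hw K U, convergents g w hw K U⟩

end Pool.Agent.Results.MP_648c71_nt.GoodApproximations
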