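import Pool.Agent.Q25.NDig

set_option autoImplicit false

/-!
# The Liouville function at products of linear and quadratic polynomials, at integers with independent random digits

The digits of `m < b ^ k` in base `b` are independent random variables with arbitrary distributions, no digit having a
probability larger than `1 - η` (for instance, `m` may be a random integer with restricted digits). For almost all
constant terms `c` the Liouville function of the products of the polynomials `κ_j T² + β_j T + σ_j c_j` has mean zero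
along these random arguments, and the signs of the values of the polynomials are independent.

From the starting files: `Pool.Agent.TH872.Sq` (the second moments over the constant terms of sums over integers with
random digits), `Pool.Agent.W93.LM` (the Liouville function in major arcs), `Pool.Agent.H807R2.Dav` (Davenport).
-/

namespace Pool.Agent.Results.MP_648c71_nt.RandomDigitArguments

open Finset Polynomial

/-- `w i d` is the probability that the digit number `i` is equal to `d`; no digit has a probability larger than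
`1 - η` -/
structure Digits (b : ℕ) (η : ℝ) (w : ℕ → ℕ → ℝ) : Prop where
  nonneg : ∀ i d, 0 ≤ w i d
  sum : ∀ i, ∑ d ∈ range b, w i d = 1
  le : ∀ i d, w i d ≤ 1 - η

/-- the probability of the integer `m < b ^ k`, the product of the probabilities of its digits -/
noncomputable def weight (b : ℕ) (w : ℕ → ℕ → ℝ) (k m : ℕ) : ℝ := ∏ i ∈ range k, w i (m / b ^ i % b)

/-- the Liouville function of an integer, as in the problem: `λ(-n) = λ(n)` and `λ(0) = 0` -/
noncomputable def lam (n : ℤ) : ℝ := if n = 0 then 0 else (-1) ^ ArithmeticFunction.cardFactors n.natAbs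

/-- the polynomial `κ_j T² + β_j T + σ_j c_j` -/
noncomputable def pol {r : ℕ} (κ β σ : Fin r → ℤ) (c : Fin r → ℕ) (j : Fin r) : ℤ[X] :=
  C (κ j) * X ^ 2 + C (β j) * X + C (σ j * (c j : ℤ))

/-- the degree of `κ T² + β T + c` -/
def deg (κ : ℤ) : ℕ := if κ = 0 then 1 else 2

/-- the expectation of `G(m) λ(F(m))`, `F = ∏_{j ∈ I} f_j` -/
noncomputable def corr (b : ℕ) (w : ℕ → ℕ → ℝ) (k : ℕ) {r : ℕ} (f : Fin r → ℤ[X]) (I : Finset (Fin r)) (G : ℕ → ℝ) : ℝ :=
  ∑ m ∈ range (b ^ k), weight b w k m * (G m * lam ((∏ j ∈ I, f j).eval (m : ℤ)))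

open Classical in
/-- the expectation of `G(m)`, restricted to the `m` with `λ(f_j(m)) = e_j` for all `j` -/
noncomputable def pattern (b : ℕ) (w : ℕ → ℕ → ℝ) (k : ℕ) {r : ℕ} (f : Fin r → ℤ[X]) (e : Fin r → ℝ) (G : ℕ → ℝ) : ℝ :=
  ∑ m ∈ (range (b ^ k)).filter (fun m : ℕ => ∀ j, lam ((f j).eval (m : ℤ)) = e j), weight b w k m * G m

/-- `|E G(m) λ(F(m))| ≤ k ^ (-U)` for the product `F` of any nonempty set of the polynomials `f_j`, and all the `2 ^ r`
sign patterns have the predicted weight up to `k ^ (-U)` -/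
def Good (b : ℕ) (w : ℕ → ℕ → ℝ) (k U : ℕ) {r : ℕ} (f : Fin r → ℤ[X]) (G : ℕ → ℝ) : Prop :=
  (∀ I : Finset (Fin r), I.Nonempty → |corr b w k f I G| ≤ 1 / (k : ℝ) ^ U) ∧
  ∀ e : Fin r → ℝ, (∀ j, e j = 1 ∨ e j = -1) →
    |pattern b w k f e G - (1 / 2) ^ r * ∑ m ∈ range (b ^ k), weight b w k m * G m| ≤ 1 / (k : ℝ) ^ U

/-! ### the Liouville function -/

lemma lam_mul (a b : ℤ) : lam (a * b) = lam a * lam b := by
  unfold lam
  by_cases ha : a = 0
  · simp [ha]
  by_cases hb : b = 0
  · simp [hb]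
  rw [if_neg ha, if_neg hb, if_neg (mul_ne_zero ha hb), Int.natAbs_mul,
    ArithmeticFunction.cardFactors_mul (Int.natAbs_ne_zero.2 ha) (Int.natAbs_ne_zero.2 hb), pow_add]

lemma lam_one : lam 1 = 1 := by simp [lam]

lemma lam_prod {ι : Type*} (s : Finset ι) (f : ι → ℤ) : lam (∏ j ∈ s, f j) = ∏ j ∈ s, lam (f j) := by
  classical
  induction s using Finset.induction_on with
  | empty => simpa using lam_one
  | insert a s ha ih => rw [prod_insert ha, prod_insert ha, lam_mul, ih]

/-- the Liouville function on the natural numbers -/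
noncomputable def lam0 (n : ℕ) : ℝ := (-1) ^ ArithmeticFunction.cardFactors n

open Pool.Agent.TH872.Sq (fx qv dg ld th)

lemma lam_split (z : ℤ) : lam z = fx lam0 z + fx lam0 (-z) := by
  unfold lam fx lam0
  rcases lt_trichotomy z 0 with h | h | h
  · rw [if_neg h.ne, if_neg (by omega), if_pos (by omega), zero_add]
    congr 2
    omega
  · subst h; simp
  · rw [if_neg h.ne', if_pos (by omega), if_neg (by omega), add_zero]
    congr 2
    omega

lemma lam_pm {z : ℤ} (hz : z ≠ 0) : lam z = 1 ∨ lam z = -1 := by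
  unfold lam
  rw [if_neg hz]
  exact neg_one_pow_eq_or ℝ _

lemma lam_abs (z : ℤ) : |lam z| ≤ 1 := by
  by_cases hz : z = 0
  · simp [lam, hz]
  · rcases lam_pm hz with h | h <;> rw [h] <;> norm_num

/-! ### the weights -/

lemma weight_nonneg {b : ℕ} {η : ℝ} {w : ℕ → ℕ → ℝ} (hw : Digits b η w) (k m : ℕ) : 0 ≤ weight b w k m :=
  prod_nonneg fun _ _ => hw.nonneg _ _

lemma weight_le {b : ℕ} {η : ℝ} {w : ℕ → ℕ → ℝ} (hw : Digits b η w) (k m : ℕ) : weight b w k m ≤ (1 - η) ^ k := by
  unfold weight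
  refine (prod_le_prod (fun _ _ => hw.nonneg _ _) (fun _ _ => hw.le _ _)).trans (le_of_eq ?_)
  rw [prod_const, card_range]

/-- a fixed polynomial value is zero for at most two arguments -/
lemma zeros_le {r : ℕ} (κ β σ : Fin r → ℤ) (hκ : ∀ j, κ j ≠ 0 ∨ β j ≠ 0) (c : Fin r → ℕ) (j : Fin r) (N : ℕ) :
    ((range N).filter (fun m : ℕ => (pol κ β σ c j).eval (m : ℤ) = 0)).card ≤ 2 := by
  classical
  have hdeg : (pol κ β σ c j).natDegree ≤ 2 := by unfold pol; compute_degree
  have hne : pol κ β σ c j ≠ 0 := by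
    intro h0
    have e1 : (pol κ β σ c j).coeff 2 = κ j := by
      unfold pol
      simp only [coeff_add, coeff_C_mul, coeff_X_pow, coeff_X, coeff_C]
      norm_num
    have e2 : (pol κ β σ c j).coeff 1 = β j := by
      unfold pol
      simp only [coeff_add, coeff_C_mul, coeff_X_pow, coeff_X, coeff_C]
      norm_num
    rw [h0, coeff_zero] at e1 e2
    rcases hκ j with h | h
    · exact h e1.symm
    · exact h e2.symm
  have h1 : ((range N).filter (fun m : ℕ => (pol κ β σ c j).eval (m : ℤ) = 0)).card ≤ (pol κ β σ c j).roots.toFinset.card := by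
    apply card_le_card_of_injOn (fun m : ℕ => (m : ℤ))
    · intro m hm
      rw [mem_coe, mem_filter] at hm
      rw [mem_coe, Multiset.mem_toFinset, mem_roots hne]
      exact hm.2
    · intro m _ m' _ h
      simpa using h
  exact h1.trans ((Multiset.toFinset_card_le _).trans ((card_roots' _).trans hdeg))

lemma eval_pol {r : ℕ} (κ β σ : Fin r → ℤ) (c : Fin r → ℕ) (j : Fin r) (m : ℕ) :
    (pol κ β σ c j).eval (m : ℤ) = qv (κ j) (β j) m + σ j * (c j : ℤ) := by
  unfold pol qv
  simp

/-! ### the sign changes -/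

/-- change of the signs for the indices outside of `J` -/
def flip {r : ℕ} (J : Finset (Fin r)) (v : Fin r → ℤ) : Fin r → ℤ := fun j => if j ∈ J then v j else - v j

lemma corr_eq (b : ℕ) (w : ℕ → ℕ → ℝ) (k : ℕ) {r : ℕ} (κ β σ : Fin r → ℤ) (c : Fin r → ℕ) (I : Finset (Fin r)) (G : ℕ → ℝ) :
    corr b w k (pol κ β σ c) I G = ∑ J ∈ I.powerset, Pool.Agent.Q25.NDig.Sm b w k (flip J κ) (flip J β) I
      (fun j n => if j ∈ I then lam0 n else th n) (fun _ _ => 1) G (fun j => flip J σ j * (c j : ℤ)) := by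
  classical
  unfold corr Pool.Agent.Q25.NDig.Sm
  rw [sum_comm]
  apply sum_congr rfl
  intro m _
  have h1 : weight b w k m = Pool.Agent.TH872.Sq.P b w 0 k m := by
    unfold weight Pool.Agent.TH872.Sq.P
    simp only [zero_add]
  rw [← mul_sum, ← mul_sum, h1]
  congr 2
  rw [eval_prod, lam_prod, prod_congr rfl (fun j _ => by rw [eval_pol, lam_split]), prod_add]
  apply sum_congr rfl
  intro J hJ
  have hJI := mem_powerset.1 hJ
  have h2 : ∀ j : Fin r, (if j ∈ I then fx (fun n => if j ∈ I then lam0 n else th n)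
      (qv (flip J κ j) (flip J β j) m + flip J σ j * (c j : ℤ)) else (1 : ℝ)) =
      if j ∈ I then (if j ∈ J then fx lam0 (qv (κ j) (β j) m + σ j * (c j : ℤ)) else
        fx lam0 (-(qv (κ j) (β j) m + σ j * (c j : ℤ)))) else 1 := by
    intro j
    by_cases hj : j ∈ I
    · rw [if_pos hj, if_pos hj]
      simp only [if_pos hj]
      by_cases hjJ : j ∈ J
      · simp only [flip, if_pos hjJ]
      · simp only [flip, if_neg hjJ]
        congr 1
        unfold qv
        ring
    · rw [if_neg hj, if_neg hj]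
  rw [prod_congr rfl (fun j _ => h2 j), prod_ite_mem, univ_inter, ← prod_sdiff hJI, mul_comm]
  congr 1
  · apply prod_congr rfl
    intro j hj
    rw [mem_sdiff] at hj
    rw [if_neg hj.2]
  · apply prod_congr rfl
    intro j hj
    rw [if_pos hj]

/-! ### the sign patterns -/

lemma pattern_eq {b k : ℕ} {η : ℝ} {w : ℕ → ℕ → ℝ} (hw : Digits b η w) {r : ℕ} (κ β σ : Fin r → ℤ)
    (hκ : ∀ j, κ j ≠ 0 ∨ β j ≠ 0) (c : Fin r → ℕ) (e : Fin r → ℝ)
    (he : ∀ j, e j = 1 ∨ e j = -1) (G : ℕ → ℝ) (hG : ∀ n, |G n| ≤ 1) (hη1 : 0 ≤ 1 - η) :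
    |pattern b w k (pol κ β σ c) e G -
      (1 / 2) ^ r * ∑ I ∈ (univ : Finset (Fin r)).powerset, (∏ j ∈ I, e j) * corr b w k (pol κ β σ c) I G| ≤
      2 * r * (1 - η) ^ k := by
  classical
  set F : Fin r → ℕ → ℤ := fun j m => (pol κ β σ c j).eval (m : ℤ) with hF
  have h1 : ∀ m, |(if ∀ j, lam (F j m) = e j then (1 : ℝ) else 0) -
      (1 / 2) ^ r * ∑ I ∈ (univ : Finset (Fin r)).powerset, (∏ j ∈ I, e j) * ∏ j ∈ I, lam (F j m)| ≤
        ∑ j : Fin r, if F j m = 0 then (1 : ℝ) else 0 := by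
    intro m
    have h2 : ∑ I ∈ (univ : Finset (Fin r)).powerset, (∏ j ∈ I, e j) * ∏ j ∈ I, lam (F j m) =
        ∏ j, (1 + e j * lam (F j m)) := by
      rw [prod_one_add]
      apply sum_congr rfl
      intro I _
      rw [prod_mul_distrib]
    have h3 : ((1 : ℝ) / 2) ^ r = ∏ _j : Fin r, (1 / 2 : ℝ) := by rw [prod_const, card_univ, Fintype.card_fin]
    rw [h2, h3, ← prod_mul_distrib]
    by_cases hz : ∃ j, F j m = 0
    · obtain ⟨j0, hj0⟩ := hz
      have h4 : (1 : ℝ) ≤ ∑ j : Fin r, if F j m = 0 then (1 : ℝ) else 0 := by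
        refine le_trans (le_of_eq (if_pos hj0).symm)
          (single_le_sum (f := fun j => if F j m = 0 then (1 : ℝ) else 0) (fun j _ => ?_) (mem_univ j0))
        split_ifs <;> norm_num
      refine le_trans ?_ h4
      have h5 : ∀ j ∈ (univ : Finset (Fin r)), 0 ≤ (1 / 2 : ℝ) * (1 + e j * lam (F j m)) := by
        intro j _
        have h6 := abs_le.1 (lam_abs (F j m))
        rcases he j with h | h <;> rw [h] <;> linarith
      have h7 : ∀ j ∈ (univ : Finset (Fin r)), (1 / 2 : ℝ) * (1 + e j * lam (F j m)) ≤ 1 := by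
        intro j _
        have h6 := abs_le.1 (lam_abs (F j m))
        rcases he j with h | h <;> rw [h] <;> linarith
      have h8 := prod_nonneg h5
      have h9 := prod_le_one h5 h7
      rw [abs_le]
      split_ifs <;> constructor <;> linarith
    · push Not at hz
      have h4 : ∑ j : Fin r, (if F j m = 0 then (1 : ℝ) else 0) = 0 := sum_eq_zero fun j _ => if_neg (hz j)
      rw [h4]
      apply le_of_eq
      rw [abs_eq_zero, sub_eq_zero]
      by_cases h : ∀ j, lam (F j m) = e j
      · rw [if_pos h]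
        symm
        apply prod_eq_one
        intro j _
        rw [h j]
        rcases he j with h' | h' <;> rw [h'] <;> norm_num
      · rw [if_neg h]
        push Not at h
        obtain ⟨j, hj⟩ := h
        symm
        apply prod_eq_zero (mem_univ j)
        rcases he j with h' | h' <;> rcases lam_pm (hz j) with h'' | h''
        · exact absurd (h''.trans h'.symm) hj
        · rw [h', h'']; norm_num
        · rw [h', h'']; norm_num
        · exact absurd (h''.trans h'.symm) hj
  have h5 : pattern b w k (pol κ β σ c) e G -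
      (1 / 2) ^ r * ∑ I ∈ (univ : Finset (Fin r)).powerset, (∏ j ∈ I, e j) * corr b w k (pol κ β σ c) I G =
      ∑ m ∈ range (b ^ k), (weight b w k m * G m) * ((if ∀ j, lam (F j m) = e j then (1 : ℝ) else 0) -
        (1 / 2) ^ r * ∑ I ∈ (univ : Finset (Fin r)).powerset, (∏ j ∈ I, e j) * ∏ j ∈ I, lam (F j m)) := by
    unfold pattern corr
    rw [sum_filter]
    have h6 : ∀ I ∈ (univ : Finset (Fin r)).powerset, (∏ j ∈ I, e j) * ∑ m ∈ range (b ^ k),
        weight b w k m * (G m * lam ((∏ j ∈ I, pol κ β σ c j).eval (m : ℤ))) =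
        ∑ m ∈ range (b ^ k), (weight b w k m * G m) * ((∏ j ∈ I, e j) * ∏ j ∈ I, lam (F j m)) := by
      intro I _
      rw [mul_sum]
      apply sum_congr rfl
      intro m _
      rw [eval_prod, lam_prod]
      ring
    rw [sum_congr rfl h6, sum_comm, mul_sum, ← sum_sub_distrib]
    apply sum_congr rfl
    intro m _
    rw [← mul_sum]
    have h7 : (if ∀ j, lam ((pol κ β σ c j).eval (m : ℤ)) = e j then weight b w k m * G m else 0) =
        (weight b w k m * G m) * (if ∀ j, lam (F j m) = e j then (1 : ℝ) else 0) := by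
      simp only [hF]
      split_ifs <;> ring
    rw [h7]
    ring
  rw [h5]
  refine (abs_sum_le_sum_abs _ _).trans ?_
  have h6 : ∀ m ∈ range (b ^ k), |(weight b w k m * G m) * ((if ∀ j, lam (F j m) = e j then (1 : ℝ) else 0) -
        (1 / 2) ^ r * ∑ I ∈ (univ : Finset (Fin r)).powerset, (∏ j ∈ I, e j) * ∏ j ∈ I, lam (F j m))| ≤
      ∑ j : Fin r, (if F j m = 0 then (1 - η) ^ k else 0) := by
    intro m _
    rw [abs_mul, abs_mul, abs_of_nonneg (weight_nonneg hw k m)]
    calc weight b w k m * |G m| * _ ≤ (1 - η) ^ k * 1 * (∑ j : Fin r, if F j m = 0 then (1 : ℝ) else 0) := by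
          apply mul_le_mul (mul_le_mul (weight_le hw k m) (hG m) (abs_nonneg _) (by positivity)) (h1 m) (abs_nonneg _)
            (by positivity)
      _ = _ := by
          rw [mul_one, mul_sum]
          apply sum_congr rfl
          intro j _
          rw [mul_ite, mul_one, mul_zero]
  refine (sum_le_sum h6).trans ?_
  rw [sum_comm]
  have h7 : ∀ j ∈ (univ : Finset (Fin r)), ∑ m ∈ range (b ^ k), (if F j m = 0 then (1 - η) ^ k else 0) ≤ 2 * (1 - η) ^ k := by
    intro j _
    rw [← sum_filter, sum_const, nsmul_eq_mul]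
    apply mul_le_mul_of_nonneg_right _ (by positivity)
    exact_mod_cast zeros_le κ β σ hκ c j (b ^ k)
  refine (sum_le_sum h7).trans (le_of_eq ?_)
  rw [sum_const, card_univ, Fintype.card_fin, nsmul_eq_mul]
  ring

open Classical in
/-- **The Liouville function at products of linear and quadratic polynomials along random arguments.** Let `b ≥ 2`,
`η > 0`, the integers `κ_j`, `β_j`, not both zero (`j < r`), `F`, `U` and `K` be fixed and let `k` be large. Let the
digits of `m < b ^ k` be independent, with arbitrary distributions giving to no digit a probability larger than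
`1 - η`, let `σ_j = 1` or `-1` and `b ^ (d_j k) ≤ X_j ≤ F b ^ (d_j k)`, where `d_j` is the degree of
`f_j = κ_j T² + β_j T + σ_j c_j`, and let `G_l`, `l < L ≤ k ^ K`, be arbitrary functions bounded by `1` (for example the
functions `λ(g_l(n))` with arbitrary polynomials `g_l`, or the indicator functions of arithmetic progressions). For all
`c` with `1 ≤ c_j ≤ X_j`, with at most `(∏ X_j) / k ^ U` exceptions, `|E G_l(m) λ(F(m))| ≤ k ^ (-U)` for all `l` and the
products `F` of all the nonempty subsets of the `f_j`, and all the sign patterns of the `λ(f_j(m))` have the probability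
`2 ^ (-r)`, also with the weight `G_l`, up to `k ^ (-U)`. -/
theorem result (b : ℕ) (hb : 2 ≤ b) (η : ℝ) (hη : 0 < η) (r : ℕ) (κ β : Fin r → ℤ) (hκ : ∀ j, κ j ≠ 0 ∨ β j ≠ 0)
    (F U K : ℕ) :
    ∃ K₀ : ℕ, ∀ k : ℕ, K₀ ≤ k → ∀ w : ℕ → ℕ → ℝ, Digits b η w → ∀ σ : Fin r → ℤ, (∀ j, σ j = 1 ∨ σ j = -1) →
    ∀ X : Fin r → ℕ, (∀ j, b ^ (deg (κ j) * k) ≤ X j ∧ X j ≤ F * b ^ (deg (κ j) * k)) →
    ∀ L : ℕ, L ≤ k ^ K → ∀ G : Fin L → ℕ → ℝ, (∀ l n, |G l n| ≤ 1) →
    (((Fintype.piFinset (fun j : Fin r => Icc 1 (X j))).filter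
      (fun c => ¬ ∀ l, Good b w k U (pol κ β σ c) (G l))).card : ℝ) ≤ (∏ j, (X j : ℝ)) / (k : ℝ) ^ U := by
  have hnice : Pool.Agent.W93.LM.Nice (fun n => ((lam0 n : ℝ) : ℂ)) := by
    have h1 : (fun n => ((lam0 n : ℝ) : ℂ)) = Pool.Agent.H373R2.T7.liR := by
      funext n
      unfold lam0 Pool.Agent.H373R2.T7.liR
      push_cast
      rfl
    rw [h1]
    exact Pool.Agent.W93.LM.nice_liR
  -- the case of a digit probability bound below one half of the total
  rcases lt_or_ge (1 - η) 0 with hη1 | hη1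
  · refine ⟨0, fun k _ w hw => ?_⟩
    exact absurd (hw.nonneg 0 0) (not_le.2 (lt_of_le_of_lt (hw.le 0 0) hη1))
  have hld : ∀ (J : Finset (Fin r)) (j : Fin r), ld (flip J κ j) (flip J β j) ≠ 0 := by
    intro J j
    unfold ld flip
    rcases hκ j with h | h <;> split_ifs <;> omega
  choose! n0 hn0 using fun (I : Finset (Fin r)) (hI : I.Nonempty) (J : Finset (Fin r)) =>
    Pool.Agent.Q25.NDig.gen b hb η hη r (flip J κ) (flip J β) (hld J) I I hI (Subset.refl I)
      (fun j n => if j ∈ I then lam0 n else th n)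
      (fun j hj => by simp only [if_pos hj]; exact hnice) (fun j hj n => by
        simp only [if_neg hj]
        exact ⟨le_rfl, Pool.Agent.TH872.Sq.th_le n⟩) F (U + 3) K
  -- the powers of `1 - η`
  obtain ⟨k1, hk1⟩ : ∃ k1 : ℕ, ∀ k : ℕ, k1 ≤ k → 2 * (r : ℝ) * (1 - η) ^ k * (k : ℝ) ^ (U + 1) ≤ 1 := by
    have h1 : Filter.Tendsto (fun k : ℕ => (k : ℝ) ^ (U + 1) * (1 - η) ^ k) Filter.atTop (nhds 0) :=
      tendsto_pow_const_mul_const_pow_of_lt_one (U + 1) hη1 (by linarith)
    have h2 : Filter.Tendsto (fun k : ℕ => 2 * (r : ℝ) * ((k : ℝ) ^ (U + 1) * (1 - η) ^ k)) Filter.atTop (nhds (2 * r * 0)) :=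
      h1.const_mul _
    rw [mul_zero] at h2
    obtain ⟨k1, hk1⟩ := Filter.eventually_atTop.1 (h2.eventually_le_const zero_lt_one)
    exact ⟨k1, fun k hk => le_trans (le_of_eq (by ring)) (hk1 k hk)⟩
  refine ⟨(∑ I : Finset (Fin r), ∑ J : Finset (Fin r), n0 I J) + k1 + 2 ^ r + 2, fun k hk w hw σ hσ X hX L hL G hG => ?_⟩
  have hks : ∑ I : Finset (Fin r), ∑ J : Finset (Fin r), n0 I J ≤ k ∧ k1 ≤ k ∧ 2 ^ r ≤ k ∧ 2 ≤ k := by
    generalize 2 ^ r = M at hk
    generalize (∑ I : Finset (Fin r), ∑ J : Finset (Fin r), n0 I J) = M' at hk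
    omega
  have hk2 : (2 : ℝ) ≤ k := by exact_mod_cast hks.2.2.2
  have hk0 : (0 : ℝ) < k := by linarith
  have hkr : (2 : ℝ) ^ r ≤ k := by exact_mod_cast hks.2.2.1
  -- the bad vectors for a set of indices and a set of signs
  set Bad : Finset (Fin r) × Finset (Fin r) → Finset (Fin r → ℕ) := fun q =>
    (Fintype.piFinset (fun j : Fin r => Icc 1 (X j))).filter
    (fun c => ∃ l, 1 / (k : ℝ) ^ (U + 3) < |Pool.Agent.Q25.NDig.Sm b w k (flip q.2 κ) (flip q.2 β) q.1
      (fun j n => if j ∈ q.1 then lam0 n else th n) (fun _ _ => 1) (G l) (fun j => flip q.2 σ j * (c j : ℤ))|) with hBad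
  set S : Finset (Finset (Fin r) × Finset (Fin r)) := univ.filter (fun q => q.1.Nonempty) with hS
  have hcard : ∀ q ∈ S, ((Bad q).card : ℝ) ≤ (∏ j, (X j : ℝ)) / (k : ℝ) ^ (U + 3) := by
    intro q hq
    have hI' := (mem_filter.1 hq).2
    refine hn0 q.1 hI' q.2 k ?_ w ⟨hw.nonneg, hw.sum, hw.le⟩ (flip q.2 σ) (fun j => ?_) X (fun j => ?_) L hL G hG
      (fun _ _ => 1) (fun _ _ => by norm_num) _ (fun c _ h => h)
    · refine le_trans ?_ hks.1
      refine le_trans (single_le_sum (f := fun J => n0 q.1 J) (fun _ _ => Nat.zero_le _) (mem_univ q.2)) ?_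
      exact single_le_sum (f := fun I => ∑ J : Finset (Fin r), n0 I J) (fun _ _ => Nat.zero_le _) (mem_univ q.1)
    · unfold flip
      rcases hσ j with h | h <;> rw [h] <;> split_ifs <;> simp
    · have e1 : dg (flip q.2 κ j) = deg (κ j) := by
        unfold dg deg flip
        by_cases h0 : κ j = 0
        · rw [h0]; simp
        · have : (if j ∈ q.2 then κ j else - κ j) ≠ 0 := by split_ifs <;> simpa using h0
          rw [if_neg this, if_neg h0]
      rw [e1]
      exact hX j
  have hsub : (Fintype.piFinset (fun j : Fin r => Icc 1 (X j))).filter (fun c => ¬ ∀ l, Good b w k U (pol κ β σ c) (G l)) ⊆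
      S.biUnion Bad := by
    intro c hc
    rw [mem_filter] at hc
    by_contra hcon
    apply hc.2
    intro l
    have hkU : ∀ j : ℕ, (0 : ℝ) < (k : ℝ) ^ j := fun j => by positivity
    have hall : ∀ I : Finset (Fin r), I.Nonempty → |corr b w k (pol κ β σ c) I (G l)| ≤ 1 / (k : ℝ) ^ (U + 2) := by
      intro I hI
      rw [corr_eq]
      have h1 : ∀ J ∈ I.powerset, |Pool.Agent.Q25.NDig.Sm b w k (flip J κ) (flip J β) I
          (fun j n => if j ∈ I then lam0 n else th n) (fun _ _ => 1) (G l) (fun j => flip J σ j * (c j : ℤ))| ≤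
          1 / (k : ℝ) ^ (U + 3) := by
        intro J _
        by_contra hb'
        push Not at hb'
        apply hcon
        rw [mem_biUnion]
        exact ⟨(I, J), mem_filter.2 ⟨mem_univ _, hI⟩, mem_filter.2 ⟨hc.1, l, hb'⟩⟩
      refine (abs_sum_le_sum_abs _ _).trans ((sum_le_sum h1).trans ?_)
      rw [sum_const, nsmul_eq_mul, card_powerset]
      have h2 : (((2 ^ I.card : ℕ) : ℝ)) ≤ k := by
        refine le_trans ?_ hkr
        have : I.card ≤ r := by simpa using card_le_univ I
        exact_mod_cast Nat.pow_le_pow_right (by norm_num) this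
      calc (((2 ^ I.card : ℕ) : ℝ)) * (1 / (k : ℝ) ^ (U + 3)) ≤ k * (1 / (k : ℝ) ^ (U + 3)) :=
            mul_le_mul_of_nonneg_right h2 (by positivity)
        _ = 1 / (k : ℝ) ^ (U + 2) := by
            rw [show U + 3 = (U + 2) + 1 by ring, pow_succ]
            field_simp
    have hmono : 1 / (k : ℝ) ^ (U + 2) ≤ 1 / (k : ℝ) ^ U := by
      apply div_le_div_of_nonneg_left zero_le_one (hkU U)
      exact pow_le_pow_right₀ (by linarith) (by omega)
    refine ⟨fun I hI => (hall I hI).trans hmono, fun e he => ?_⟩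
    have hp := pattern_eq (k := k) hw κ β σ hκ c e he (G l) (hG l) hη1
    have hq : |(1 / 2) ^ r * ∑ I ∈ (univ : Finset (Fin r)).powerset, (∏ j ∈ I, e j) * corr b w k (pol κ β σ c) I (G l) -
        (1 / 2) ^ r * ∑ m ∈ range (b ^ k), weight b w k m * G l m| ≤ 1 / (k : ℝ) ^ (U + 2) := by
      have e1 : ∑ I ∈ (univ : Finset (Fin r)).powerset, (∏ j ∈ I, e j) * corr b w k (pol κ β σ c) I (G l) =
          ∑ m ∈ range (b ^ k), weight b w k m * G l m +
            ∑ I ∈ (univ : Finset (Fin r)).powerset.erase ∅, (∏ j ∈ I, e j) * corr b w k (pol κ β σ c) I (G l) := by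
        rw [← add_sum_erase _ _ (empty_mem_powerset (univ : Finset (Fin r)))]
        congr 1
        unfold corr
        simp [lam_one]
      rw [e1, mul_add, add_sub_cancel_left, abs_mul, abs_of_pos (by positivity : (0 : ℝ) < (1 / 2) ^ r)]
      have e2 : |∑ I ∈ (univ : Finset (Fin r)).powerset.erase ∅, (∏ j ∈ I, e j) * corr b w k (pol κ β σ c) I (G l)| ≤
          2 ^ r * (1 / (k : ℝ) ^ (U + 2)) := by
        refine (abs_sum_le_sum_abs _ _).trans ?_
        refine (sum_le_sum (g := fun _ => 1 / (k : ℝ) ^ (U + 2)) ?_).trans ?_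
        · intro I hI
          rw [mem_erase] at hI
          rw [abs_mul, abs_prod]
          have h5 : ∏ j ∈ I, |e j| = 1 := prod_eq_one fun j _ => by rcases he j with h | h <;> rw [h] <;> norm_num
          rw [h5, one_mul]
          exact hall I (nonempty_iff_ne_empty.2 hI.1)
        · rw [sum_const, nsmul_eq_mul]
          apply mul_le_mul_of_nonneg_right _ (by positivity)
          have h6 : ((univ : Finset (Fin r)).powerset.erase ∅).card ≤ 2 ^ r := by
            refine (card_erase_le).trans ?_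
            rw [card_powerset, card_univ, Fintype.card_fin]
          exact_mod_cast h6
      calc ((1 : ℝ) / 2) ^ r * |∑ I ∈ (univ : Finset (Fin r)).powerset.erase ∅, (∏ j ∈ I, e j) *
            corr b w k (pol κ β σ c) I (G l)|
          ≤ (1 / 2) ^ r * (2 ^ r * (1 / (k : ℝ) ^ (U + 2))) := mul_le_mul_of_nonneg_left e2 (by positivity)
        _ = 1 / (k : ℝ) ^ (U + 2) := by
          rw [← mul_assoc, ← mul_pow]
          norm_num
    have h3 : 2 * (r : ℝ) * (1 - η) ^ k ≤ 1 / (k : ℝ) ^ (U + 1) := by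
      rw [le_div_iff₀ (hkU _)]
      exact hk1 k hks.2.1
    have h4 : 1 / (k : ℝ) ^ (U + 2) ≤ 1 / (k : ℝ) ^ (U + 1) := by
      apply div_le_div_of_nonneg_left zero_le_one (hkU _)
      exact pow_le_pow_right₀ (by linarith) (by omega)
    have h5 : 1 / (k : ℝ) ^ (U + 1) + 1 / (k : ℝ) ^ (U + 1) ≤ 1 / (k : ℝ) ^ U := by
      rw [pow_succ, ← two_mul, ← mul_div_assoc, mul_one, div_le_div_iff₀ (by positivity) (hkU U), one_mul, mul_comm]
      exact mul_le_mul_of_nonneg_left hk2 (hkU U).le
    calc |pattern b w k (pol κ β σ c) e (G l) - (1 / 2) ^ r * ∑ m ∈ range (b ^ k), weight b w k m * G l m|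
        ≤ |pattern b w k (pol κ β σ c) e (G l) - (1 / 2) ^ r * ∑ I ∈ (univ : Finset (Fin r)).powerset,
            (∏ j ∈ I, e j) * corr b w k (pol κ β σ c) I (G l)| +
          |(1 / 2) ^ r * ∑ I ∈ (univ : Finset (Fin r)).powerset, (∏ j ∈ I, e j) * corr b w k (pol κ β σ c) I (G l) -
            (1 / 2) ^ r * ∑ m ∈ range (b ^ k), weight b w k m * G l m| := abs_sub_le _ _ _
      _ ≤ 1 / (k : ℝ) ^ (U + 1) + 1 / (k : ℝ) ^ (U + 1) := add_le_add (hp.trans h3) (hq.trans h4)
      _ ≤ _ := h5
  have hfin : (((Fintype.piFinset (fun j : Fin r => Icc 1 (X j))).filter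
      (fun c => ¬ ∀ l, Good b w k U (pol κ β σ c) (G l))).card : ℝ) ≤ ∑ q ∈ S, ((Bad q).card : ℝ) := by
    rw [← Nat.cast_sum]
    exact Nat.cast_le.2 ((card_le_card hsub).trans card_biUnion_le)
  refine hfin.trans ((sum_le_sum hcard).trans ?_)
  rw [sum_const, nsmul_eq_mul]
  have h7 : ((S.card : ℕ) : ℝ) ≤ (k : ℝ) ^ 2 := by
    have h8 : S.card ≤ 2 ^ r * 2 ^ r := by
      refine (card_filter_le _ _).trans ?_
      rw [card_univ, Fintype.card_prod, Fintype.card_finset, Fintype.card_fin]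
    have h9 : ((2 ^ r * 2 ^ r : ℕ) : ℝ) ≤ (k : ℝ) ^ 2 := by
      push_cast
      rw [sq]
      exact mul_le_mul hkr hkr (by positivity) hk0.le
    exact le_trans (by exact_mod_cast h8) h9
  have h8 : 0 ≤ (∏ j, (X j : ℝ)) := prod_nonneg fun _ _ => Nat.cast_nonneg _
  refine (mul_le_mul_of_nonneg_right h7 (div_nonneg h8 (by positivity))).trans ?_
  rw [← mul_div_assoc, mul_comm, div_le_div_iff₀ (by positivity) (by positivity)]
  have h9 : (k : ℝ) ^ (U + 3) = (k : ℝ) ^ U * (k : ℝ) ^ 2 * k := by ring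
  rw [h9]
  calc (∏ j, (X j : ℝ)) * (k : ℝ) ^ 2 * (k : ℝ) ^ U = (∏ j, (X j : ℝ)) * ((k : ℝ) ^ U * (k : ℝ) ^ 2) * 1 := by ring
    _ ≤ (∏ j, (X j : ℝ)) * ((k : ℝ) ^ U * (k : ℝ) ^ 2) * k :=
        mul_le_mul_of_nonneg_left (by linarith) (mul_nonneg h8 (by positivity))
    _ = _ := by ring

end Pool.Agent.Results.MP_648c71_nt.RandomDigitArguments
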